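import Mathlib
import Pool.Agent.R175.LatPath
import Pool.Agent.R175.GridTile
import Pool.Agent.R175.TriGeo
import Pool.Agent.R175.HexTile

/-!
# The regular hexagon is the prototile of an `n`-armed spiral for every `n ≥ 1`

The hexagon is marked with one short diagonal. In the hexagonal tiling one vertex class of the honeycomb is a
triangular lattice, each tile contains exactly one of its upward triangles, and the short diagonals of the tile
that we use are the sides of this triangle. The arms are `n` interlaced spirals on the triangular lattice.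
-/

set_option autoImplicit false

namespace Pool.Agent.Results.MP_f80956_co.AllArms

open Set Pool.Agent.R175.LatPath Pool.Agent.R175.TriGeo Pool.Agent.R175.HexTile
open Pool.Agent.R175.GridTile (IsArc)

/-- A marking of `T`: finitely many, at least one, arcs contained in `T`. -/
def IsMarking (T : Set ℂ) (M : Set (Set ℂ)) : Prop := M.Finite ∧ M.Nonempty ∧ ∀ m ∈ M, IsArc m ∧ m ⊆ T

/-- A monohedral tiling of the plane with prototile `T`, the tiles being `σ i (T)`. -/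
structure IsMonohedralTiling {ι : Type} (T : Set ℂ) (σ : ι → (ℂ ≃ᵢ ℂ)) : Prop where
  disk : IsClosed T ∧ Nonempty (T ≃ₜ Metric.closedBall (0 : ℂ) 1)
  countable : Countable ι
  closed : ∀ i, IsClosed (σ i '' T)
  cover : ⋃ i, σ i '' T = univ
  disjoint : ∀ i j, i ≠ j → Disjoint (interior (σ i '' T)) (interior (σ j '' T))

/-- An unbounded simple curve: the image of a proper continuous injective map from `[0,∞)` or from `ℝ`. -/
def IsUnboundedSimpleCurve (C : Set ℂ) : Prop :=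
  (∃ f : ℝ → ℂ, IsProperMap f ∧ Function.Injective f ∧ range f = C) ∨
  (∃ f : NNReal → ℂ, IsProperMap f ∧ Function.Injective f ∧ range f = C)

/-- The union of all the marked arcs is the disjoint union of exactly `n` unbounded simple curves. -/
def IsArmedSpiral {ι : Type} (n : ℕ) (M : Set (Set ℂ)) (σ : ι → (ℂ ≃ᵢ ℂ)) : Prop :=
  ∃ C : Fin n → Set ℂ, (∀ i, IsUnboundedSimpleCurve (C i)) ∧ (∀ i j, i ≠ j → Disjoint (C i) (C j)) ∧
    ⋃ i, ⋃ m ∈ M, σ i '' m = ⋃ i, C i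

/-- The successor function of the `n` spirals. -/
def S (n : ℕ) (p : ℤ × ℤ) : ℤ × ℤ :=
  if 0 ≤ p.2 then
    (if 1 < p.1 then (p.1 - 1, p.2 + 1)
     else if -p.2 < p.1 then (if 2 - (n : ℤ) ≤ p.1 then (p.1 - 1, p.2 + 1) else (p.1 - 1, p.2))
     else if 0 < p.2 then (p.1, p.2 - 1)
     else (p.1 + 1, p.2 - 1))
  else if p.1 ≤ 0 then (p.1 + 1, p.2 - 1)
  else if p.1 < -p.2 then (p.1 + 1, p.2)
  else (p.1, p.2 + 1)

theorem S_ur {n : ℕ} {a b : ℤ} (h1 : 0 ≤ b) (h2 : 1 < a) : S n (a, b) = (a - 1, b + 1) := by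
  unfold S; rw [if_pos h1, if_pos h2]
theorem S_cut {n : ℕ} {a b : ℤ} (h1 : 0 ≤ b) (h2 : a ≤ 1) (h3 : -b < a) (h4 : 2 - (n : ℤ) ≤ a) :
    S n (a, b) = (a - 1, b + 1) := by
  unfold S; rw [if_pos h1, if_neg (by dsimp only; omega), if_pos h3, if_pos h4]
theorem S_top {n : ℕ} {a b : ℤ} (h1 : 0 ≤ b) (h2 : a ≤ 1) (h3 : -b < a) (h4 : a < 2 - (n : ℤ)) :
    S n (a, b) = (a - 1, b) := by
  unfold S; rw [if_pos h1, if_neg (by dsimp only; omega), if_pos h3, if_neg (by dsimp only; omega)]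
theorem S_ul {n : ℕ} {a b : ℤ} (h1 : 0 < b) (h2 : a ≤ -b) : S n (a, b) = (a, b - 1) := by
  unfold S
  rw [if_pos (by dsimp only; omega), if_neg (by dsimp only; omega), if_neg (by dsimp only; omega), if_pos h1]
theorem S_ll {n : ℕ} {a b : ℤ} (h1 : b ≤ 0) (h2 : a ≤ 0) : S n (a, b) = (a + 1, b - 1) := by
  unfold S
  by_cases h : 0 ≤ b
  · rw [if_pos h, if_neg (by dsimp only; omega), if_neg (by dsimp only; omega), if_neg (by dsimp only; omega)]
  · rw [if_neg h, if_pos h2]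
theorem S_bo {n : ℕ} {a b : ℤ} (h1 : b < 0) (h2 : 1 ≤ a) (h3 : a < -b) : S n (a, b) = (a + 1, b) := by
  unfold S; rw [if_neg (by dsimp only; omega), if_neg (by dsimp only; omega), if_pos h3]
theorem S_ri {n : ℕ} {a b : ℤ} (h1 : b < 0) (h2 : 1 ≤ a) (h3 : -b ≤ a) : S n (a, b) = (a, b + 1) := by
  unfold S; rw [if_neg (by dsimp only; omega), if_neg (by dsimp only; omega), if_neg (by dsimp only; omega)]

theorem S_val (n : ℕ) (a b : ℤ) :
    (0 ≤ b ∧ 1 < a ∧ S n (a, b) = (a - 1, b + 1)) ∨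
    (0 ≤ b ∧ (a ≤ 1 ∧ -b < a ∧ 2 - (n : ℤ) ≤ a) ∧ S n (a, b) = (a - 1, b + 1)) ∨
    (0 ≤ b ∧ (a ≤ 1 ∧ -b < a ∧ a < 2 - (n : ℤ)) ∧ S n (a, b) = (a - 1, b)) ∨
    (0 < b ∧ a ≤ -b ∧ S n (a, b) = (a, b - 1)) ∨
    (b ≤ 0 ∧ a ≤ 0 ∧ S n (a, b) = (a + 1, b - 1)) ∨
    (b < 0 ∧ (1 ≤ a ∧ a < -b) ∧ S n (a, b) = (a + 1, b)) ∨
    (b < 0 ∧ (1 ≤ a ∧ -b ≤ a) ∧ S n (a, b) = (a, b + 1)) := by
  have h : (0 ≤ b ∧ 1 < a) ∨ (0 ≤ b ∧ a ≤ 1 ∧ -b < a ∧ 2 - (n : ℤ) ≤ a) ∨
    (0 ≤ b ∧ a ≤ 1 ∧ -b < a ∧ a < 2 - (n : ℤ)) ∨ (0 < b ∧ a ≤ -b) ∨ (b ≤ 0 ∧ a ≤ 0) ∨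
    (b < 0 ∧ 1 ≤ a ∧ a < -b) ∨ (b < 0 ∧ 1 ≤ a ∧ -b ≤ a) := by omega
  rcases h with h | h | h | h | h | h | h
  · left; exact ⟨h.1, h.2, S_ur h.1 h.2⟩
  · right; left; exact ⟨h.1, h.2, S_cut h.1 h.2.1 h.2.2.1 h.2.2.2⟩
  · right; right; left; exact ⟨h.1, h.2, S_top h.1 h.2.1 h.2.2.1 h.2.2.2⟩
  · right; right; right; left; exact ⟨h.1, h.2, S_ul h.1 h.2⟩
  · right; right; right; right; left; exact ⟨h.1, h.2, S_ll h.1 h.2⟩
  · right; right; right; right; right; left; exact ⟨h.1, h.2, S_bo h.1 h.2.1 h.2.2⟩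
  · right; right; right; right; right; right; exact ⟨h.1, h.2, S_ri h.1 h.2.1 h.2.2⟩

/-- The starts of the spirals. -/
def o (n : ℕ) (i : Fin n) : ℤ × ℤ := (-(i.val : ℤ), (i.val : ℤ))

/-- Number of the ring. -/
def rk (p : ℤ × ℤ) : ℕ :=
  if 0 ≤ p.2 then
    (if 1 < p.1 then (p.1 + p.2 - 1).toNat
     else if -p.2 < p.1 then p.2.toNat
     else if 0 < p.2 then (-p.1).toNat
     else (-p.1 - p.2).toNat)
  else if p.1 ≤ 0 then (-p.1 - p.2).toNat
  else if p.1 < -p.2 then (-1 - p.2).toNat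
  else (p.1 - 1).toNat

/-- Position in the ring. -/
def pos (p : ℤ × ℤ) : ℕ :=
  if 0 ≤ p.2 then
    (if 1 < p.1 then (5 * p.1 + 6 * p.2 - 3).toNat
     else if -p.2 < p.1 then (if p.1 = 1 then (6 * p.2 + 2).toNat else (-p.1).toNat)
     else if 0 < p.2 then (-2 * p.1 - p.2).toNat
     else (-2 * p.1 - 3 * p.2).toNat)
  else if p.1 ≤ 0 then (-2 * p.1 - 3 * p.2).toNat
  else if p.1 < -p.2 then (p.1 - 3 * p.2 - 3).toNat
  else (5 * p.1 - 3 + p.2).toNat

theorem S_inj (n : ℕ) : Function.Injective (S n) := by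
  rintro ⟨a, b⟩ ⟨a', b'⟩ heq
  rw [Prod.mk.injEq]
  rcases S_val n a b with h | h | h | h | h | h | h <;>
    rcases S_val n a' b' with h' | h' | h' | h' | h' | h' | h' <;>
    rw [h.2.2, h'.2.2, Prod.mk.injEq] at heq <;>
    obtain ⟨a1, a2, -⟩ := h <;> obtain ⟨b1, b2, -⟩ := h' <;> omega

theorem S_no (n : ℕ) (i : Fin n) (p : ℤ × ℤ) : S n p ≠ o n i := by
  obtain ⟨a, b⟩ := p
  intro heq
  have hi := i.isLt
  unfold o at heq
  rcases S_val n a b with h | h | h | h | h | h | h <;> rw [h.2.2, Prod.mk.injEq] at heq <;>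
    obtain ⟨a1, a2, -⟩ := h <;> omega

theorem S_reach (n : ℕ) (hn : 0 < n) : ∀ p, ∃ (i : Fin n) (m : ℕ), (S n)^[m] (o n i) = p := by
  apply reach_of_rank rk pos
  rintro ⟨a, b⟩
  have hc : (0 ≤ b ∧ a = -b ∧ b < n) ∨ (0 ≤ b - 1 ∧ 1 < a + 1) ∨
      (0 ≤ b - 1 ∧ a + 1 ≤ 1 ∧ -(b - 1) < a + 1 ∧ 2 - (n : ℤ) ≤ a + 1) ∨
      (0 ≤ b ∧ a + 1 ≤ 1 ∧ -b < a + 1 ∧ a + 1 < 2 - (n : ℤ)) ∨ (0 < b + 1 ∧ a ≤ -(b + 1)) ∨
      (b + 1 ≤ 0 ∧ a - 1 ≤ 0) ∨ (b < 0 ∧ 1 ≤ a - 1 ∧ a - 1 < -b) ∨ (b - 1 < 0 ∧ 1 ≤ a ∧ -(b - 1) ≤ a) := by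
    omega
  rcases hc with h | h | h | h | h | h | h | h
  · left
    refine ⟨⟨b.toNat, by omega⟩, ?_⟩
    unfold o
    apply Prod.ext
    · change a = -((b.toNat : ℕ) : ℤ); omega
    · change b = ((b.toNat : ℕ) : ℤ); omega
  · right
    refine ⟨(a + 1, b - 1), ?_, ?_⟩
    · rw [S_ur h.1 h.2]; simp
    · simp only [rk, pos]; split_ifs <;> omega
  · right
    refine ⟨(a + 1, b - 1), ?_, ?_⟩
    · rw [S_cut h.1 h.2.1 h.2.2.1 h.2.2.2]; simp
    · simp only [rk, pos]; split_ifs <;> omega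
  · right
    refine ⟨(a + 1, b), ?_, ?_⟩
    · rw [S_top h.1 h.2.1 h.2.2.1 h.2.2.2]; simp
    · simp only [rk, pos]; split_ifs <;> omega
  · right
    refine ⟨(a, b + 1), ?_, ?_⟩
    · rw [S_ul h.1 h.2]; simp
    · simp only [rk, pos]; split_ifs <;> omega
  · right
    refine ⟨(a - 1, b + 1), ?_, ?_⟩
    · rw [S_ll h.1 h.2]; simp
    · simp only [rk, pos]; split_ifs <;> omega
  · right
    refine ⟨(a - 1, b), ?_, ?_⟩
    · rw [S_bo h.1 h.2.1 h.2.2]; simp
    · simp only [rk, pos]; split_ifs <;> omega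
  · right
    refine ⟨(a, b - 1), ?_, ?_⟩
    · rw [S_ri h.1 h.2.1 h.2.2]; simp
    · simp only [rk, pos]; split_ifs <;> omega

theorem spirals (n : ℕ) (hn : 0 < n) : MultiRay Adj (S n) (o n) where
  inj := S_inj n
  no := S_no n
  oinj := by
    intro i j h
    unfold o at h
    rw [Prod.mk.injEq] at h
    exact Fin.ext (by omega)
  adj := by
    rintro ⟨a, b⟩
    rcases S_val n a b with h | h | h | h | h | h | h <;> rw [h.2.2] <;> simp [Adj]
  reach := S_reach n hn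

/-- The type of the marked diagonal of the tile `p`. -/
def sd (n : ℕ) (p : ℤ × ℤ) : Dg :=
  if 0 ≤ p.2 then
    (if 1 ≤ p.1 then Dg.C
     else if -p.2 ≤ p.1 then (if 1 - (n : ℤ) ≤ p.1 then Dg.C else Dg.A)
     else Dg.B)
  else if p.1 ≤ 0 then Dg.C
  else if p.1 < -p.2 then Dg.A
  else Dg.B

theorem sd_edge (n : ℕ) (p : ℤ × ℤ) :
    S n (e1 p (sd n p)) = e2 p (sd n p) ∨ S n (e2 p (sd n p)) = e1 p (sd n p) := by
  obtain ⟨a, b⟩ := p
  unfold sd
  dsimp only
  split_ifs with h1 h2 h3 h4 h5 h6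
  · left
    change S n (a + 1, b) = (a, b + 1)
    rw [S_ur (by omega) (by omega)]; simp
  · left
    change S n (a + 1, b) = (a, b + 1)
    rw [S_cut (by omega) (by omega) (by omega) (by omega)]; simp
  · right
    change S n (a + 1, b) = (a, b)
    rw [S_top (by omega) (by omega) (by omega) (by omega)]; simp
  · left
    change S n (a, b + 1) = (a, b)
    rw [S_ul (by omega) (by omega)]; simp
  · right
    change S n (a, b + 1) = (a + 1, b)
    rw [S_ll (by omega) (by omega)]; simp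
  · left
    change S n (a, b) = (a + 1, b)
    rw [S_bo (by omega) (by omega) (by omega)]
  · right
    change S n (a, b) = (a, b + 1)
    rw [S_ri (by omega) (by omega) (by omega)]

theorem edge_sd (n : ℕ) (p : ℤ × ℤ) : ∃ q, (e1 q (sd n q) = p ∧ e2 q (sd n q) = S n p) ∨
    (e2 q (sd n q) = p ∧ e1 q (sd n q) = S n p) := by
  obtain ⟨a, b⟩ := p
  rcases S_val n a b with h | h | h | h | h | h | h
  · refine ⟨(a - 1, b), Or.inl ?_⟩
    have hs : sd n (a - 1, b) = Dg.C := by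
      unfold sd; rw [if_pos (by dsimp only; omega), if_pos (by dsimp only; omega)]
    rw [hs, h.2.2]; simp [e1, e2]
  · refine ⟨(a - 1, b), Or.inl ?_⟩
    have hs : sd n (a - 1, b) = Dg.C := by
      unfold sd
      rw [if_pos (by dsimp only; omega), if_neg (by dsimp only; omega), if_pos (by dsimp only; omega),
        if_pos (by dsimp only; omega)]
    rw [hs, h.2.2]; simp [e1, e2]
  · refine ⟨(a - 1, b), Or.inr ?_⟩
    have hs : sd n (a - 1, b) = Dg.A := by
      unfold sd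
      rw [if_pos (by dsimp only; omega), if_neg (by dsimp only; omega), if_pos (by dsimp only; omega),
        if_neg (by dsimp only; omega)]
    rw [hs, h.2.2]; simp [e1, e2]
  · refine ⟨(a, b - 1), Or.inl ?_⟩
    have hs : sd n (a, b - 1) = Dg.B := by
      unfold sd
      rw [if_pos (by dsimp only; omega), if_neg (by dsimp only; omega), if_neg (by dsimp only; omega)]
    rw [hs, h.2.2]; simp [e1, e2]
  · refine ⟨(a, b - 1), Or.inr ?_⟩
    have hs : sd n (a, b - 1) = Dg.C := by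
      unfold sd
      rw [if_neg (by dsimp only; omega), if_pos (by dsimp only; omega)]
    rw [hs, h.2.2]; simp [e1, e2]
  · refine ⟨(a, b), Or.inl ?_⟩
    have hs : sd n (a, b) = Dg.A := by
      unfold sd
      rw [if_neg (by dsimp only; omega), if_neg (by dsimp only; omega), if_pos (by dsimp only; omega)]
    rw [hs, h.2.2]; simp [e1, e2]
  · refine ⟨(a, b), Or.inr ?_⟩
    have hs : sd n (a, b) = Dg.B := by
      unfold sd
      rw [if_neg (by dsimp only; omega), if_neg (by dsimp only; omega), if_neg (by dsimp only; omega)]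
    rw [hs, h.2.2]; simp [e1, e2]

theorem union_eq (n : ℕ) : ⋃ p, segment ℝ (pt (e1 p (sd n p))) (pt (e2 p (sd n p))) =
    ⋃ p, segment ℝ (pt p) (pt (S n p)) := by
  ext z
  simp only [mem_iUnion]
  constructor
  · rintro ⟨p, hp⟩
    rcases sd_edge n p with h | h
    · exact ⟨e1 p (sd n p), by rw [h]; exact hp⟩
    · exact ⟨e2 p (sd n p), by rw [h, segment_symm]; exact hp⟩
  · rintro ⟨p, hp⟩
    obtain ⟨q, ⟨h1, h2⟩ | ⟨h1, h2⟩⟩ := edge_sd n p
    · exact ⟨q, by rw [h1, h2]; exact hp⟩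
    · exact ⟨q, by rw [h1, h2, segment_symm]; exact hp⟩

/-- The placements of the tiles. -/
noncomputable def φ (n : ℕ) (p : ℤ × ℤ) : ℂ ≃ᵢ ℂ := place p (sd n p)

theorem tiling (n : ℕ) : IsMonohedralTiling hexagon (φ n) where
  disk := ⟨hexagon_closed, hexagon_disk⟩
  countable := inferInstance
  closed := fun p => (place p (sd n p)).toHomeomorph.isClosedMap _ hexagon_closed
  cover := by
    have : ∀ p, φ n p '' hexagon = tile p := fun p => place_hexagon p (sd n p)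
    simp only [this]
    exact tiles_cover
  disjoint := by
    intro p q hpq
    have : ∀ p, φ n p '' hexagon = tile p := fun p => place_hexagon p (sd n p)
    rw [this, this]
    exact tiles_disjoint p q hpq

theorem marking : IsMarking hexagon {diag} := by
  refine ⟨finite_singleton _, singleton_nonempty _, ?_⟩
  rintro m rfl
  exact ⟨diag_arc, diag_sub⟩

theorem armed (n : ℕ) (hn : 0 < n) : IsArmedSpiral n {diag} (φ n) := by
  refine ⟨fun i => arm pt (S n) (o n i), ?_, ?_, ?_⟩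
  · intro i
    right
    obtain ⟨f, hf, hr⟩ := (spirals n hn).arm_closed geo i
    exact ⟨f, hf.isProperMap, hf.injective, hr⟩
  · intro i j hij
    exact (spirals n hn).arm_disjoint geo hij
  · rw [(spirals n hn).union_arms, ← union_eq]
    exact union_marks _

/-- For every positive integer `n` the regular hexagon (with vertices the sixth roots of unity) can be marked
by one arc so that, for some monohedral tiling with the hexagon as prototile, the marked tiling is an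
`n`-armed spiral. -/
theorem result : ∀ n : ℕ, 0 < n → ∃ (M : Set (Set ℂ)) (ι : Type) (σ : ι → (ℂ ≃ᵢ ℂ)),
    IsMarking (convexHull ℝ {z : ℂ | z ^ 6 = 1}) M ∧ IsMonohedralTiling (convexHull ℝ {z : ℂ | z ^ 6 = 1}) σ ∧
      IsArmedSpiral n M σ := by
  intro n hn
  exact ⟨{diag}, ℤ × ℤ, φ n, marking, tiling n, armed n hn⟩

end Pool.Agent.Results.MP_f80956_co.AllArms
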